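import Mathlib
import Pool.Agent.Y35.VQ.Lerf
import Pool.Agent.Helper270.HNN

set_option autoImplicit false

/-! Gersten's free-by-cyclic tubular group `⟨a, b, c, t | a^t = a, b^t = b a, c^t = c a²⟩`:
it is cyclic subgroup separable but `⟨a⟩` is not a virtual retract. -/

namespace Pool.Agent.U985.Gersten

open Pool.Agent.Helper270.HNN

/-- free group on `a = of 0`, `b = of 1`, `c = of 2` -/
abbrev F : Type := FreeGroup (Fin 3)

/-- the generator `a` -/
abbrev a : F := FreeGroup.of 0

/-- the generator `b` -/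
abbrev b : F := FreeGroup.of 1

/-- the generator `c` -/
abbrev c : F := FreeGroup.of 2

/-- the endomorphism `a ↦ a`, `b ↦ b a^i`, `c ↦ c a^(2i)` -/
def phi (i : ℤ) : F →* F := FreeGroup.lift ![a, b * a ^ i, c * a ^ (2 * i)]

@[simp] theorem phi_a (i : ℤ) : phi i a = a := by simp [phi]

@[simp] theorem phi_b (i : ℤ) : phi i b = b * a ^ i := by simp [phi]

@[simp] theorem phi_c (i : ℤ) : phi i c = c * a ^ (2 * i) := by simp [phi]

theorem phi_comp (i j : ℤ) : (phi i).comp (phi j) = phi (i + j) := by
  apply FreeGroup.ext_hom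
  intro x
  fin_cases x
  · show phi i (phi j a) = phi (i + j) a
    simp
  · show phi i (phi j b) = phi (i + j) b
    simp only [phi_b, map_mul, map_zpow, phi_a, mul_assoc, ← zpow_add]
  · show phi i (phi j c) = phi (i + j) c
    simp only [phi_c, map_mul, map_zpow, phi_a, mul_assoc, ← zpow_add, ← mul_add]

theorem phi_phi (i j : ℤ) (x : F) : phi i (phi j x) = phi (i + j) x := by
  rw [← phi_comp]; rfl

theorem phi_zero : phi 0 = MonoidHom.id F := by
  apply FreeGroup.ext_hom
  intro x
  fin_cases x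
  · show phi 0 a = a
    simp
  · show phi 0 b = b
    simp
  · show phi 0 c = c
    simp

theorem phi_zero_apply (x : F) : phi 0 x = x := by rw [phi_zero]; rfl

/-- the action of the infinite cyclic group -/
def Phi : Multiplicative ℤ →* MulAut F where
  toFun n :=
    { toFun := phi n.toAdd
      invFun := phi (-n.toAdd)
      left_inv := fun x => by rw [phi_phi, neg_add_cancel, phi_zero_apply]
      right_inv := fun x => by rw [phi_phi, add_neg_cancel, phi_zero_apply]
      map_mul' := fun x y => map_mul _ x y }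
  map_one' := by
    ext x
    show phi 0 x = x
    exact phi_zero_apply x
  map_mul' m n := by
    ext x
    show phi (m.toAdd + n.toAdd) x = phi m.toAdd (phi n.toAdd x)
    rw [phi_phi]

theorem Phi_apply (n : Multiplicative ℤ) (x : F) : Phi n x = phi n.toAdd x := rfl

/-- Gersten's group -/
abbrev G : Type := F ⋊[Phi] Multiplicative ℤ

/-- the vertices of the tree -/
abbrev V : Type := F ⧸ Subgroup.zpowers a

theorem phi_zpowers (i : ℤ) {x : F} (hx : x ∈ Subgroup.zpowers a) : phi i x ∈ Subgroup.zpowers a := by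
  obtain ⟨k, rfl⟩ := hx
  exact ⟨k, by simp⟩

instance : SMul G V where
  smul g := Quotient.map' (fun w => g.left * phi g.right.toAdd w) (by
    intro x y h
    rw [QuotientGroup.leftRel_apply] at h ⊢
    have : (g.left * phi g.right.toAdd x)⁻¹ * (g.left * phi g.right.toAdd y) =
        phi g.right.toAdd (x⁻¹ * y) := by
      rw [map_mul, map_inv]; group
    rw [this]
    exact phi_zpowers _ h)

theorem smul_mk (g : G) (w : F) : g • (w : V) = ((g.left * phi g.right.toAdd w : F) : V) := rfl

instance : MulAction G V where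
  one_smul v := by
    obtain ⟨w, rfl⟩ := QuotientGroup.mk_surjective v
    rw [smul_mk]
    simp only [SemidirectProduct.one_left, SemidirectProduct.one_right, toAdd_one]
    rw [phi_zero_apply, one_mul]
  mul_smul g h v := by
    obtain ⟨w, rfl⟩ := QuotientGroup.mk_surjective v
    rw [smul_mk, smul_mk, smul_mk]
    simp only [SemidirectProduct.mul_left, SemidirectProduct.mul_right, toAdd_mul, Phi_apply,
      map_mul, phi_phi, mul_assoc]

theorem mk_eq {x y : F} : (x : V) = (y : V) ↔ ∃ k : ℤ, x * a ^ k = y := by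
  rw [QuotientGroup.eq, Subgroup.mem_zpowers_iff]
  constructor
  · rintro ⟨k, hk⟩
    exact ⟨k, by rw [hk]; group⟩
  · rintro ⟨k, hk⟩
    exact ⟨k, by rw [← hk]; group⟩

/-- oriented edges -/
def E (u v : V) : Prop := ∃ (w : F) (x : Fin 3), x ≠ 0 ∧ u = (w : V) ∧ v = ((w * FreeGroup.of x : F) : V)

/-- the exponent sum of `b` and `c` -/
def eps : F →* Multiplicative ℤ :=
  FreeGroup.lift ![1, Multiplicative.ofAdd 1, Multiplicative.ofAdd 1]

theorem eps_a : eps a = 1 := by simp [eps]

theorem eps_of {x : Fin 3} (hx : x ≠ 0) : eps (FreeGroup.of x) = Multiplicative.ofAdd 1 := by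
  fin_cases x
  · exact absurd rfl hx
  · simp [eps]
  · simp [eps]

theorem eps_phi (i : ℤ) (w : F) : eps (phi i w) = eps w := by
  have : eps.comp (phi i) = eps := by
    apply FreeGroup.ext_hom
    intro x
    fin_cases x
    · show eps (phi i a) = eps a
      simp
    · show eps (phi i b) = eps b
      rw [phi_b, map_mul, map_zpow, eps_a, one_zpow, mul_one]
    · show eps (phi i c) = eps c
      rw [phi_c, map_mul, map_zpow, eps_a, one_zpow, mul_one]
  exact DFunLike.congr_fun this w

/-- the level of a vertex -/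
def lvl (v : V) : Multiplicative ℤ :=
  Quotient.liftOn' v eps (by
    intro x y h
    rw [QuotientGroup.leftRel_apply, Subgroup.mem_zpowers_iff] at h
    obtain ⟨k, hk⟩ := h
    have : eps (x⁻¹ * y) = 1 := by rw [← hk, map_zpow, eps_a, one_zpow]
    rw [map_mul, map_inv, inv_mul_eq_one] at this
    exact this)

theorem lvl_mk (w : F) : lvl (w : V) = eps w := rfl

theorem lvl_E {u v : V} (h : E u v) : lvl v = lvl u * Multiplicative.ofAdd 1 := by
  obtain ⟨w, x, hx, rfl, rfl⟩ := h
  rw [lvl_mk, lvl_mk, map_mul, eps_of hx]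

theorem lvl_smul (g : G) (v : V) : lvl (g • v) = eps g.left * lvl v := by
  obtain ⟨w, rfl⟩ := QuotientGroup.mk_surjective v
  rw [smul_mk, lvl_mk, lvl_mk, map_mul, eps_phi]

/-- the Bass-Serre tree -/
def T : SimpleGraph V where
  Adj u v := E u v ∨ E v u
  symm := ⟨fun _ _ h => Or.symm h⟩
  loopless := ⟨fun v h => by
    have h1 : E v v := by rcases h with h | h <;> exact h
    have h2 := lvl_E h1
    have h3 : (lvl v).toAdd = (lvl v).toAdd + 1 := by
      conv_lhs => rw [h2]
      rfl
    omega⟩

theorem E_smul (g : G) {u v : V} (h : E u v) : E (g • u) (g • v) := by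
  obtain ⟨w, x, hx, rfl, rfl⟩ := h
  refine ⟨g.left * phi g.right.toAdd w, x, hx, smul_mk _ _, ?_⟩
  rw [smul_mk, mk_eq]
  fin_cases x
  · exact absurd rfl hx
  · refine ⟨-g.right.toAdd, ?_⟩
    show g.left * phi g.right.toAdd (w * b) * a ^ (-g.right.toAdd) = g.left * phi g.right.toAdd w * b
    rw [map_mul, phi_b]
    group
  · refine ⟨-(2 * g.right.toAdd), ?_⟩
    show g.left * phi g.right.toAdd (w * c) * a ^ (-(2 * g.right.toAdd)) =
      g.left * phi g.right.toAdd w * c
    rw [map_mul, phi_c]
    group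

theorem adj_smul (g : G) (u v : V) (h : T.Adj u v) : T.Adj (g • u) (g • v) := by
  rcases h with h | h
  · exact Or.inl (E_smul g h)
  · exact Or.inr (E_smul g h)

theorem no_inversion (g : G) (u v : V) (h : T.Adj u v) : ¬ (g • u = v ∧ g • v = u) := by
  rintro ⟨h1, h2⟩
  have h3 := lvl_smul g u
  have h4 := lvl_smul g v
  rw [h1] at h3
  rw [h2] at h4
  have h5 : (lvl v).toAdd = (eps g.left).toAdd + (lvl u).toAdd := by rw [h3]; rfl
  have h6 : (lvl u).toAdd = (eps g.left).toAdd + (lvl v).toAdd := by rw [h4]; rfl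
  rcases h with h | h
  · have h7 : (lvl v).toAdd = (lvl u).toAdd + 1 := by rw [lvl_E h]; rfl
    omega
  · have h7 : (lvl u).toAdd = (lvl v).toAdd + 1 := by rw [lvl_E h]; rfl
    omega

/-! ### The graph is a tree -/

/-- remove the leading letters `a^±` -/
def strip (l : List (Fin 3 × Bool)) : List (Fin 3 × Bool) := l.dropWhile (fun x => x.1 = 0)

/-- number of letters different from `a^±` -/
def cnt (l : List (Fin 3 × Bool)) : ℕ := l.countP (fun x => x.1 ≠ 0)

theorem toWord_of_mul (x : Fin 3) (p : F) :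
    (∃ tl, p.toWord = (x, false) :: tl ∧ (FreeGroup.of x * p).toWord = tl) ∨
      (FreeGroup.of x * p).toWord = (x, true) :: p.toWord := by
  have h : (FreeGroup.of x * p).toWord = FreeGroup.reduce ((x, true) :: p.toWord) := by
    rw [FreeGroup.toWord_mul, FreeGroup.toWord_of]; rfl
  rw [FreeGroup.reduce.cons, FreeGroup.reduce_toWord] at h
  rcases hp : p.toWord with _ | ⟨hd, tl⟩
  · right
    rw [hp] at h
    exact h
  · rw [hp] at h
    simp only at h
    by_cases hc : x = hd.1 ∧ true = !hd.2
    · left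
      refine ⟨tl, ?_, ?_⟩
      · obtain ⟨h1, h2⟩ := hc
        have : hd = (x, false) := by
          ext
          · exact (congrArg Fin.val h1).symm
          · cases hh : hd.2
            · rfl
            · rw [hh] at h2; exact absurd h2 (by decide)
        rw [this]
      · rw [h, if_pos hc]
    · right
      rw [h, if_neg hc]

theorem strip_a_mul (p : F) : strip (a * p).toWord = strip p.toWord := by
  rcases toWord_of_mul 0 p with ⟨tl, h1, h2⟩ | h
  · rw [h1, h2]; rfl
  · rw [h]; rfl

theorem cnt_a_mul (p : F) : cnt (a * p).toWord = cnt p.toWord := by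
  rcases toWord_of_mul 0 p with ⟨tl, h1, h2⟩ | h
  · rw [h1, h2]; rfl
  · rw [h]; rfl

theorem strip_zpow_mul (k : ℤ) (p : F) : strip (a ^ k * p).toWord = strip p.toWord := by
  induction k using Int.induction_on generalizing p with
  | zero => simp
  | succ n ih => rw [zpow_add_one, mul_assoc, ih, strip_a_mul]
  | pred n ih =>
    rw [zpow_sub_one, mul_assoc, ih, ← strip_a_mul, mul_inv_cancel_left]

theorem cnt_zpow_mul (k : ℤ) (p : F) : cnt (a ^ k * p).toWord = cnt p.toWord := by
  induction k using Int.induction_on generalizing p with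
  | zero => simp
  | succ n ih => rw [zpow_add_one, mul_assoc, ih, cnt_a_mul]
  | pred n ih =>
    rw [zpow_sub_one, mul_assoc, ih, ← cnt_a_mul, mul_inv_cancel_left]

/-- the parent of a vertex -/
def par (v : V) : V :=
  Quotient.liftOn' v (fun w => (((FreeGroup.mk (strip (w⁻¹).toWord).tail)⁻¹ : F) : V)) (by
    intro x y h
    rw [QuotientGroup.leftRel_apply, Subgroup.mem_zpowers_iff] at h
    obtain ⟨k, hk⟩ := h
    have : y⁻¹ = a ^ (-k) * x⁻¹ := by rw [zpow_neg, hk]; group
    show (((FreeGroup.mk (strip (x⁻¹).toWord).tail)⁻¹ : F) : V) =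
      (((FreeGroup.mk (strip (y⁻¹).toWord).tail)⁻¹ : F) : V)
    rw [this, strip_zpow_mul])

theorem par_mk (w : F) : par (w : V) = (((FreeGroup.mk (strip (w⁻¹).toWord).tail)⁻¹ : F) : V) := rfl

/-- the distance to the root -/
def lev (v : V) : ℕ :=
  Quotient.liftOn' v (fun w => cnt (w⁻¹).toWord) (by
    intro x y h
    rw [QuotientGroup.leftRel_apply, Subgroup.mem_zpowers_iff] at h
    obtain ⟨k, hk⟩ := h
    have : y⁻¹ = a ^ (-k) * x⁻¹ := by rw [zpow_neg, hk]; group
    show cnt (x⁻¹).toWord = cnt (y⁻¹).toWord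
    rw [this, cnt_zpow_mul])

theorem lev_mk (w : F) : lev (w : V) = cnt (w⁻¹).toWord := rfl

/-- the root -/
def o : V := ((1 : F) : V)

theorem lev_o : lev o = 0 := by
  unfold o
  rw [lev_mk, inv_one, FreeGroup.toWord_one]
  rfl

theorem mk_all_zero (l : List (Fin 3 × Bool)) (h : ∀ x ∈ l, x.1 = 0) :
    (FreeGroup.mk l : F) ∈ Subgroup.zpowers a := by
  induction l with
  | nil => rw [← FreeGroup.one_eq_mk]; exact Subgroup.one_mem _
  | cons x l ih =>
    have h1 : (FreeGroup.mk (x :: l) : F) = FreeGroup.mk [x] * FreeGroup.mk l := by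
      rw [FreeGroup.mul_mk]; rfl
    rw [h1]
    refine Subgroup.mul_mem _ ?_ (ih fun y hy => h y (List.mem_cons_of_mem _ hy))
    obtain ⟨x1, x2⟩ := x
    have h2 : x1 = 0 := h (x1, x2) List.mem_cons_self
    subst h2
    cases x2 with
    | true => exact Subgroup.mem_zpowers a
    | false => exact Subgroup.inv_mem _ (Subgroup.mem_zpowers a)

/-- normal form of a vertex -/
theorem normal_form (w : F) : ∃ (A : List (Fin 3 × Bool)), (w⁻¹).toWord = A ++ strip (w⁻¹).toWord ∧
    (FreeGroup.mk A : F) ∈ Subgroup.zpowers a := by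
  refine ⟨(w⁻¹).toWord.takeWhile (fun x => x.1 = 0), ?_, ?_⟩
  · exact (List.takeWhile_append_dropWhile).symm
  · apply mk_all_zero
    intro x hx
    have := List.mem_takeWhile_imp hx
    simpa using this

theorem par_adj_lev (v : V) (hv : v ≠ o) : T.Adj v (par v) ∧ lev (par v) < lev v := by
  obtain ⟨w, rfl⟩ := QuotientGroup.mk_surjective v
  obtain ⟨A, hA, hA'⟩ := normal_form w
  have hw : w⁻¹ = FreeGroup.mk A * FreeGroup.mk (strip (w⁻¹).toWord) := by
    rw [FreeGroup.mul_mk, ← hA, FreeGroup.mk_toWord]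
  rcases hs : strip (w⁻¹).toWord with _ | ⟨⟨x, s⟩, l⟩
  · exfalso
    apply hv
    rw [hs, ← FreeGroup.one_eq_mk, mul_one] at hw
    have h1 : w⁻¹ ∈ Subgroup.zpowers a := by rw [hw]; exact hA'
    show (w : V) = ((1 : F) : V)
    rw [QuotientGroup.eq, mul_one]
    exact h1
  · have hx : x ≠ 0 := by
      have h1 := List.head_dropWhile_not (fun x : Fin 3 × Bool => decide (x.1 = 0))
        (l := (w⁻¹).toWord) (by
          show strip (w⁻¹).toWord ≠ []
          rw [hs]; simp)
      have h2 : (List.dropWhile (fun x : Fin 3 × Bool => decide (x.1 = 0)) (w⁻¹).toWord) =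
        (x, s) :: l := hs
      simp only [h2, List.head_cons] at h1
      simpa using h1
    have hpar : par (w : V) = (((FreeGroup.mk l)⁻¹ : F) : V) := by
      rw [par_mk, hs]; rfl
    have hcons : (FreeGroup.mk ((x, s) :: l) : F) = FreeGroup.mk [(x, s)] * FreeGroup.mk l := by
      rw [FreeGroup.mul_mk]; rfl
    have hw2 : (w : V) = (((FreeGroup.mk l)⁻¹ * (FreeGroup.mk [(x, s)])⁻¹ : F) : V) := by
      obtain ⟨k, hk⟩ := Subgroup.mem_zpowers_iff.mp hA'
      rw [mk_eq]
      refine ⟨k, ?_⟩
      rw [hk]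
      rw [hs, hcons] at hw
      have : w = (FreeGroup.mk l)⁻¹ * (FreeGroup.mk [(x, s)])⁻¹ * (FreeGroup.mk A)⁻¹ := by
        rw [← inv_inv w, hw]; group
      conv_lhs => rw [this]
      group
    constructor
    · rw [hpar]
      cases s with
      | true =>
        left
        refine ⟨(FreeGroup.mk l)⁻¹ * (FreeGroup.mk [(x, true)])⁻¹, x, hx, hw2, ?_⟩
        have : (FreeGroup.mk [(x, true)] : F) = FreeGroup.of x := rfl
        rw [this, inv_mul_cancel_right]
      | false =>
        right
        refine ⟨(FreeGroup.mk l)⁻¹, x, hx, rfl, ?_⟩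
        rw [hw2]
        have : (FreeGroup.mk [(x, false)] : F) = (FreeGroup.of x)⁻¹ := rfl
        rw [this, inv_inv]
    · rw [hpar, lev_mk, lev_mk, inv_inv, FreeGroup.toWord_mk, hA, hs]
      have h1 : cnt (FreeGroup.reduce l) ≤ cnt l :=
        List.Sublist.countP_le (FreeGroup.reduce.red.sublist)
      have h2 : cnt (A ++ (x, s) :: l) = cnt A + (cnt l + 1) := by
        unfold cnt
        rw [List.countP_append, List.countP_cons]
        simp [hx]
      omega

theorem adj_par (u v : V) (h : E u v) : (u ≠ o ∧ par u = v) ∨ (v ≠ o ∧ par v = u) := by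
  obtain ⟨w, x, hx, rfl, rfl⟩ := h
  have hq : w⁻¹ = FreeGroup.of x * (w * FreeGroup.of x)⁻¹ := by group
  have hne : ∀ (z : F) (s : Bool) (tl : List (Fin 3 × Bool)), (z⁻¹).toWord = (x, s) :: tl →
      (z : V) ≠ o ∧ par (z : V) = (((FreeGroup.mk tl)⁻¹ : F) : V) := by
    intro z s tl hz
    constructor
    · intro hzo
      have h1 : lev (z : V) = 0 := by rw [hzo, lev_o]
      rw [lev_mk, hz] at h1
      unfold cnt at h1
      rw [List.countP_cons] at h1
      simp [hx] at h1
    · rw [par_mk, hz]
      have : strip ((x, s) :: tl) = (x, s) :: tl := by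
        unfold strip
        rw [List.dropWhile_cons]
        simp [hx]
      rw [this]
      rfl
  rcases toWord_of_mul x (w * FreeGroup.of x)⁻¹ with ⟨tl, h1, h2⟩ | h1
  · right
    rw [← hq] at h2
    obtain ⟨h3, h4⟩ := hne _ _ _ h1
    refine ⟨h3, ?_⟩
    rw [h4, ← h2, FreeGroup.mk_toWord, inv_inv]
  · left
    rw [← hq] at h1
    obtain ⟨h3, h4⟩ := hne _ _ _ h1
    refine ⟨h3, ?_⟩
    rw [h4, FreeGroup.mk_toWord, inv_inv]

theorem isTree : T.IsTree := by
  refine isTree_of_parent (o := o) (par := par) lev (fun v hv => (par_adj_lev v hv).1)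
    (fun v hv => (par_adj_lev v hv).2) ?_
  intro u v h
  rcases h with h | h
  · exact adj_par u v h
  · exact (adj_par v u h).symm

end Pool.Agent.U985.Gersten
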