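import Pool.Agent.U985.Gersten

set_option autoImplicit false

namespace Pool.Agent.U985.Gersten

/-! ### Orbits and stabilizers -/

theorem transitive (w : F) : (SemidirectProduct.inl w⁻¹ : G) • (w : V) = o := by
  rw [smul_mk]
  simp only [SemidirectProduct.left_inl, SemidirectProduct.right_inl, toAdd_one]
  rw [phi_zero_apply, inv_mul_cancel]
  rfl

theorem vertex_orbits : ∃ S : Finset V, ∀ v : V, ∃ g : G, g • v ∈ S := by
  classical
  refine ⟨{o}, fun v => ?_⟩
  obtain ⟨w, rfl⟩ := QuotientGroup.mk_surjective v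
  exact ⟨SemidirectProduct.inl w⁻¹, by rw [transitive]; exact Finset.mem_singleton_self _⟩

theorem edge_orbits : ∃ S : Finset (V × V), ∀ u v : V, T.Adj u v → ∃ g : G, (g • u, g • v) ∈ S := by
  classical
  have key : ∀ u v : V, E u v → ∃ g : G, ∃ x : Fin 3, g • u = o ∧ g • v = (FreeGroup.of x : V) := by
    rintro u v ⟨w, x, hx, rfl, rfl⟩
    refine ⟨SemidirectProduct.inl w⁻¹, x, transitive w, ?_⟩
    rw [smul_mk]
    simp only [SemidirectProduct.left_inl, SemidirectProduct.right_inl, toAdd_one]
    rw [phi_zero_apply, inv_mul_cancel_left]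
  refine ⟨(Finset.univ : Finset (Fin 3)).image (fun x => (o, (FreeGroup.of x : V))) ∪
    (Finset.univ : Finset (Fin 3)).image (fun x => ((FreeGroup.of x : V), o)), ?_⟩
  intro u v h
  rcases h with h | h
  · obtain ⟨g, x, h1, h2⟩ := key u v h
    exact ⟨g, Finset.mem_union_left _ (Finset.mem_image.mpr ⟨x, Finset.mem_univ _, by rw [h1, h2]⟩)⟩
  · obtain ⟨g, x, h1, h2⟩ := key v u h
    exact ⟨g, Finset.mem_union_right _ (Finset.mem_image.mpr ⟨x, Finset.mem_univ _, by rw [h1, h2]⟩)⟩

/-- exponent sum of `a` -/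
def epa : F →* Multiplicative ℤ :=
  FreeGroup.lift ![Multiplicative.ofAdd 1, 1, 1]

theorem epa_a : epa a = Multiplicative.ofAdd 1 := by simp [epa]

theorem epa_zpow (k : ℤ) : (epa (a ^ k)).toAdd = k := by
  rw [map_zpow, epa_a]; simp

/-- the stabilizer of the root, as the image of `ℤ²` -/
def st : Multiplicative (Fin 2 → ℤ) →* G where
  toFun f := ⟨a ^ (f.toAdd 0), Multiplicative.ofAdd (f.toAdd 1)⟩
  map_one' := by
    apply SemidirectProduct.ext
    · show a ^ (0 : ℤ) = 1
      simp
    · rfl
  map_mul' f g := by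
    apply SemidirectProduct.ext
    · show a ^ (f.toAdd 0 + g.toAdd 0) = a ^ (f.toAdd 0) * phi (f.toAdd 1) (a ^ (g.toAdd 0))
      rw [map_zpow, phi_a, zpow_add]
    · rfl

theorem st_injective : Function.Injective st := by
  intro f g h
  have h1 : a ^ (f.toAdd 0) = a ^ (g.toAdd 0) := congrArg SemidirectProduct.left h
  have h2 : f.toAdd 1 = g.toAdd 1 := by
    have := congrArg (fun z => (SemidirectProduct.right z).toAdd) h
    exact this
  have h3 : f.toAdd 0 = g.toAdd 0 := by
    rw [← epa_zpow (f.toAdd 0), h1, epa_zpow]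
  have h4 : f.toAdd = g.toAdd := by
    funext i
    fin_cases i
    · exact h3
    · exact h2
  exact h4

theorem st_range : st.range = MulAction.stabilizer G o := by
  ext g
  rw [MonoidHom.mem_range, MulAction.mem_stabilizer_iff]
  constructor
  · rintro ⟨f, rfl⟩
    show ((a ^ (f.toAdd 0) * phi (f.toAdd 1) 1 : F) : V) = ((1 : F) : V)
    rw [map_one, mul_one, eq_comm, mk_eq]
    exact ⟨f.toAdd 0, one_mul _⟩
  · intro h
    have h1 : ((g.left * phi g.right.toAdd 1 : F) : V) = ((1 : F) : V) := h
    rw [map_one, mul_one, eq_comm, mk_eq] at h1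
    obtain ⟨k, hk⟩ := h1
    rw [one_mul] at hk
    refine ⟨Multiplicative.ofAdd ![k, g.right.toAdd], ?_⟩
    apply SemidirectProduct.ext
    · show a ^ k = g.left
      exact hk
    · rfl

theorem vertex_stab (v : V) :
    ∃ n : ℕ, Nonempty (↥(MulAction.stabilizer G v) ≃* Multiplicative (Fin n → ℤ)) := by
  refine ⟨2, ?_⟩
  obtain ⟨w, rfl⟩ := QuotientGroup.mk_surjective v
  have h : MulAction.orbitRel G V (w : V) o := by
    rw [MulAction.orbitRel_apply, ← transitive w]
    exact ⟨(SemidirectProduct.inl w⁻¹ : G)⁻¹, inv_smul_smul _ _⟩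
  exact ⟨(MulAction.stabilizerEquivStabilizerOfOrbitRel h).trans
    ((MulEquiv.subgroupCongr st_range.symm).trans (MonoidHom.ofInjective st_injective).symm)⟩

/-- a representation which detects `a` -/
def rep : F →* Matrix.SpecialLinearGroup (Fin 2) ℤ :=
  FreeGroup.lift ![⟨!![1, 1; 0, 1], by simp⟩, ⟨!![1, 0; 1, 1], by simp⟩, ⟨!![1, 0; 1, 1], by simp⟩]

theorem rep_a : (rep a : Matrix (Fin 2) (Fin 2) ℤ) = !![1, 1; 0, 1] := by simp [rep]

theorem rep_of {x : Fin 3} (hx : x ≠ 0) :
    (rep (FreeGroup.of x) : Matrix (Fin 2) (Fin 2) ℤ) = !![1, 0; 1, 1] := by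
  fin_cases x
  · exact absurd rfl hx
  · simp [rep]
  · simp [rep]

theorem rep_a_zpow (k : ℤ) : (rep (a ^ k) : Matrix (Fin 2) (Fin 2) ℤ) = !![1, k; 0, 1] := by
  have h1 : ∀ n : ℕ, (rep (a ^ n) : Matrix (Fin 2) (Fin 2) ℤ) = !![1, (n : ℤ); 0, 1] := by
    intro n
    induction n with
    | zero => ext i j; fin_cases i <;> fin_cases j <;> simp
    | succ n ih =>
      rw [pow_succ, map_mul, Matrix.SpecialLinearGroup.coe_mul, ih, rep_a]
      ext i j
      fin_cases i <;> fin_cases j <;> simp [Matrix.mul_apply, Fin.sum_univ_two] <;> ring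
  obtain ⟨n, rfl | rfl⟩ := k.eq_nat_or_neg
  · rw [zpow_natCast]; exact h1 n
  · rw [zpow_neg, zpow_natCast, map_inv, Matrix.SpecialLinearGroup.coe_inv, h1 n]
    rw [Matrix.adjugate_fin_two]
    ext i j
    fin_cases i <;> fin_cases j <;> simp

theorem a_zpow_of {x : Fin 3} (hx : x ≠ 0) {k l : ℤ}
    (h : a ^ k * FreeGroup.of x = FreeGroup.of x * a ^ l) : k = 0 := by
  have h1 := congrArg (fun z => (rep z : Matrix (Fin 2) (Fin 2) ℤ) 0 0) h
  simp only [map_mul, Matrix.SpecialLinearGroup.coe_mul, rep_a_zpow, rep_of hx] at h1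
  simp [Matrix.mul_apply, Fin.sum_univ_two] at h1
  exact h1

theorem edge_stab_E (u v : V) (h : E u v) :
    IsCyclic ↥(MulAction.stabilizer G u ⊓ MulAction.stabilizer G v) := by
  let f : ↥(MulAction.stabilizer G u ⊓ MulAction.stabilizer G v) →* Multiplicative ℤ :=
    SemidirectProduct.rightHom.comp (Subgroup.subtype _)
  refine isCyclic_of_injective f ?_
  rw [injective_iff_map_eq_one]
  rintro ⟨g, hg⟩ h1
  have h2 : g.right = 1 := h1
  obtain ⟨h3, h4⟩ := Subgroup.mem_inf.mp hg
  rw [MulAction.mem_stabilizer_iff] at h3 h4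
  obtain ⟨w, x, hx, rfl, rfl⟩ := h
  rw [smul_mk, h2, toAdd_one, phi_zero_apply] at h3 h4
  obtain ⟨k, hk⟩ := mk_eq.mp h3.symm
  obtain ⟨l, hl⟩ := mk_eq.mp h4.symm
  have h5 : a ^ k * FreeGroup.of x = FreeGroup.of x * a ^ l := by
    have h6 : w * a ^ k * FreeGroup.of x = w * FreeGroup.of x * a ^ l := by
      rw [hk, hl, mul_assoc]
    rw [mul_assoc, mul_assoc] at h6
    exact mul_left_cancel h6
  have h7 := a_zpow_of hx h5
  rw [h7, zpow_zero, mul_one] at hk
  have h8 : g.left = 1 := by
    have : g.left * w = 1 * w := by rw [← hk, one_mul]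
    exact mul_right_cancel this
  apply Subtype.ext
  exact SemidirectProduct.ext h8 h2

theorem edge_stab (u v : V) (h : T.Adj u v) :
    IsCyclic ↥(MulAction.stabilizer G u ⊓ MulAction.stabilizer G v) := by
  rcases h with h | h
  · exact edge_stab_E u v h
  · rw [inf_comm]; exact edge_stab_E v u h

/-! ### Cyclic subgroup separability -/

/-- functions on the finite set of homomorphisms from `F` to a finite group -/
def X (S : Type) [Group S] : Type := (F →* S) → S

section

variable {S : Type} [Group S]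

instance : SMul G (X S) where
  smul g ξ := fun ψ => ψ g.left * ξ (ψ.comp (phi g.right.toAdd))

theorem smul_X (g : G) (ξ : X S) (ψ : F →* S) :
    (g • ξ) ψ = ψ g.left * ξ (ψ.comp (phi g.right.toAdd)) := rfl

instance : MulAction G (X S) where
  one_smul ξ := by
    funext ψ
    rw [smul_X]
    simp only [SemidirectProduct.one_left, SemidirectProduct.one_right, toAdd_one, map_one, one_mul]
    rw [phi_zero, MonoidHom.comp_id]
  mul_smul g h ξ := by
    funext ψ
    rw [smul_X, smul_X, smul_X]
    simp only [SemidirectProduct.mul_left, SemidirectProduct.mul_right, toAdd_mul, Phi_apply,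
      map_mul, mul_assoc]
    rw [MonoidHom.comp_assoc, phi_comp]
    rfl

theorem finite_hom [Finite S] : Finite (F →* S) :=
  Finite.of_equiv _ (FreeGroup.lift (α := Fin 3) (β := S))

instance [Finite S] : Finite (X S) := by
  have := finite_hom (S := S)
  exact Pi.finite

/-- the constant function -/
def oneX : X S := fun _ => 1

theorem toPerm_eq {g h : G} (hgh : (MulAction.toPermHom G (X S)) g = MulAction.toPermHom G (X S) h)
    (hr : g.right = h.right) (ψ : F →* S) : ψ g.left = ψ h.left := by
  have h1 : g • (oneX : X S) = h • (oneX : X S) :=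
    congrArg (fun σ : Equiv.Perm (X S) => σ oneX) hgh
  have h2 := congrFun h1 ψ
  rw [smul_X, smul_X] at h2
  simpa [oneX] using h2

end

theorem sep_of_quot {g h : G} (Q : Type) [Group Q] [Finite Q] (θ : G →* Q)
    (hθ : θ h ∉ Subgroup.zpowers (θ g)) :
    ∃ K : Subgroup G, K.FiniteIndex ∧ Subgroup.zpowers g ≤ K ∧ h ∉ K := by
  refine ⟨(Subgroup.zpowers (θ g)).comap θ, ⟨?_⟩, ?_, hθ⟩
  · rw [Subgroup.index_comap, Subgroup.relIndex]
    exact Subgroup.FiniteIndex.index_ne_zero
  rw [Subgroup.zpowers_le]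
  exact Subgroup.mem_zpowers (θ g)

theorem css (g h : G) (hgh : h ∉ Subgroup.zpowers g) :
    ∃ K : Subgroup G, K.FiniteIndex ∧ Subgroup.zpowers g ≤ K ∧ h ∉ K := by
  by_cases hk : g.right = 1
  · by_cases hj : h.right = 1
    · -- both in the free group
      have h1 : h.left ∉ Subgroup.zpowers g.left := by
        intro h2
        apply hgh
        obtain ⟨s, hs⟩ := Subgroup.mem_zpowers_iff.mp h2
        refine Subgroup.mem_zpowers_iff.mpr ⟨s, ?_⟩
        have hg : g = SemidirectProduct.inl g.left := SemidirectProduct.ext rfl hk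
        have hh : h = SemidirectProduct.inl h.left := SemidirectProduct.ext rfl hj
        rw [hg, hh, ← map_zpow, hs]
      obtain ⟨S, iS, fS, ψ, hψ⟩ := Pool.Agent.Y35.VQ.lerf (Subgroup.zpowers g.left)
        ⟨{g.left}, by simp [Subgroup.zpowers_eq_closure]⟩ h.left h1
      refine sep_of_quot (Equiv.Perm (X S)) (MulAction.toPermHom G (X S)) ?_
      intro h2
      obtain ⟨s, hs⟩ := Subgroup.mem_zpowers_iff.mp h2
      rw [← map_zpow] at hs
      have hg : g ^ s = SemidirectProduct.inl (g.left ^ s) := by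
        have hg : g = SemidirectProduct.inl g.left := SemidirectProduct.ext rfl hk
        conv_lhs => rw [hg]
        rw [← map_zpow]
      rw [hg] at hs
      have h3 := toPerm_eq hs (by rw [hj]; rfl) ψ
      exact hψ _ (Subgroup.zpow_mem _ (Subgroup.mem_zpowers _) s) h3.symm
    · -- `h` has nonzero exponent
      have hj' : h.right.toAdd ≠ 0 := fun h0 => hj (by
        have : h.right = Multiplicative.ofAdd (Multiplicative.toAdd h.right) := rfl
        rw [this, h0]; rfl)
      let m : ℕ := h.right.toAdd.natAbs + 1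
      have : NeZero m := ⟨by omega⟩
      refine sep_of_quot (Multiplicative (ZMod m))
        ((AddMonoidHom.toMultiplicative (Int.castAddHom (ZMod m))).comp
          (SemidirectProduct.rightHom : G →* Multiplicative ℤ)) ?_
      intro h2
      have h3 : ((AddMonoidHom.toMultiplicative (Int.castAddHom (ZMod m))).comp
          (SemidirectProduct.rightHom : G →* Multiplicative ℤ)) g = 1 := by
        show (AddMonoidHom.toMultiplicative (Int.castAddHom (ZMod m))) g.right = 1
        rw [hk, map_one]
      rw [h3, Subgroup.zpowers_one_eq_bot, Subgroup.mem_bot] at h2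
      have h4 : ((h.right.toAdd : ℤ) : ZMod m) = 0 := h2
      rw [ZMod.intCast_zmod_eq_zero_iff_dvd] at h4
      have h5 := Int.natAbs_dvd_natAbs.mpr h4
      have h6 := Nat.le_of_dvd (by omega) h5
      simp only [Int.natAbs_natCast] at h6
      omega
  · have hk' : g.right.toAdd ≠ 0 := fun h0 => hk (by
        have : g.right = Multiplicative.ofAdd (Multiplicative.toAdd g.right) := rfl
        rw [this, h0]; rfl)
    by_cases hd : g.right.toAdd ∣ h.right.toAdd
    · obtain ⟨l, hl⟩ := hd
      -- `f = h g^{-l}` is in the free group and nontrivial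
      let f : G := h * g ^ (-l)
      have hright : ∀ (z : G) (s : ℤ), (z ^ s).right = z.right ^ s := fun z s =>
        map_zpow (SemidirectProduct.rightHom : G →* Multiplicative ℤ) z s
      have hfr : f.right = 1 := by
        show h.right * (g ^ (-l)).right = 1
        rw [hright]
        apply Multiplicative.toAdd.injective
        rw [toAdd_mul, toAdd_zpow, hl, toAdd_one]
        simp; ring
      have hf1 : f.left ≠ 1 := by
        intro h0
        apply hgh
        have h1 : f = 1 := SemidirectProduct.ext h0 hfr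
        have h2 : h = g ^ l := by
          have : h * g ^ (-l) = 1 := h1
          rw [zpow_neg, mul_inv_eq_one] at this
          exact this
        rw [h2]
        exact Subgroup.zpow_mem _ (Subgroup.mem_zpowers _) _
      obtain ⟨S, iS, fS, ψ, hψ⟩ := Pool.Agent.Y35.VQ.lerf (⊥ : Subgroup F)
        ⟨∅, by simp⟩ f.left (by rwa [Subgroup.mem_bot])
      have hψ1 : ψ f.left ≠ 1 := by
        have := hψ 1 (Subgroup.one_mem _)
        rwa [map_one] at this
      let θ := MulAction.toPermHom G (X S)
      let u0 : ℕ := orderOf (θ g)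
      have hu0 : 0 < u0 := orderOf_pos _
      let m : ℕ := g.right.toAdd.natAbs * u0
      have hm : NeZero m := ⟨by
        have : g.right.toAdd.natAbs ≠ 0 := by simpa using hk'
        exact Nat.mul_ne_zero this hu0.ne'⟩
      let τ : G →* Multiplicative (ZMod m) :=
        (AddMonoidHom.toMultiplicative (Int.castAddHom (ZMod m))).comp
          (SemidirectProduct.rightHom : G →* Multiplicative ℤ)
      refine sep_of_quot (Equiv.Perm (X S) × Multiplicative (ZMod m)) (θ.prod τ) ?_
      intro h2
      obtain ⟨s, hs⟩ := Subgroup.mem_zpowers_iff.mp h2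
      rw [← map_zpow] at hs
      have hs1 : θ (g ^ s) = θ h := congrArg Prod.fst hs
      have hs2 : τ (g ^ s) = τ h := congrArg Prod.snd hs
      have h3 : (((g ^ s).right.toAdd : ℤ) : ZMod m) = ((h.right.toAdd : ℤ) : ZMod m) := hs2
      rw [hright, toAdd_zpow, hl] at h3
      rw [ZMod.intCast_eq_intCast_iff_dvd_sub] at h3
      have h4 : (g.right.toAdd * u0 : ℤ) ∣ g.right.toAdd * (l - s) := by
        have h5 : ((m : ℕ) : ℤ) ∣ g.right.toAdd * (l - s) := by
          have : g.right.toAdd * l - s • g.right.toAdd = g.right.toAdd * (l - s) := by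
            simp only [smul_eq_mul]; ring
          rw [← this]; exact h3
        have h6 : ((m : ℕ) : ℤ) = |g.right.toAdd| * u0 := by
          show (((g.right.toAdd.natAbs * u0 : ℕ)) : ℤ) = _
          push_cast
          rfl
        rw [h6] at h5
        rcases abs_choice g.right.toAdd with h7 | h7
        · rwa [h7] at h5
        · rw [h7, neg_mul] at h5
          exact (neg_dvd.mp h5)
      have h5 : (u0 : ℤ) ∣ l - s := Int.dvd_of_mul_dvd_mul_left hk' h4
      have h6 : θ (g ^ s) = θ (g ^ l) := by
        obtain ⟨q, hq⟩ := h5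
        have : l = s + u0 * q := by omega
        rw [this, zpow_add, map_mul, zpow_mul, map_zpow, map_zpow θ (g ^ (u0 : ℤ)), map_zpow,
          zpow_natCast, pow_orderOf_eq_one, one_zpow, mul_one]
      have h7 : θ f = θ 1 := by
        show θ (h * g ^ (-l)) = θ 1
        rw [map_mul, ← hs1, h6, ← map_mul, zpow_neg, mul_inv_cancel]
      have h8 := toPerm_eq h7 (by rw [hfr]; rfl) ψ
      rw [SemidirectProduct.one_left, map_one] at h8
      exact hψ1 h8
    · have : NeZero g.right.toAdd.natAbs := ⟨by simpa using hk'⟩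
      refine sep_of_quot (Multiplicative (ZMod g.right.toAdd.natAbs))
        ((AddMonoidHom.toMultiplicative (Int.castAddHom (ZMod g.right.toAdd.natAbs))).comp
          (SemidirectProduct.rightHom : G →* Multiplicative ℤ)) ?_
      intro h2
      have h3 : ((AddMonoidHom.toMultiplicative (Int.castAddHom (ZMod g.right.toAdd.natAbs))).comp
          (SemidirectProduct.rightHom : G →* Multiplicative ℤ)) g = 1 := by
        show ((g.right.toAdd : ℤ) : ZMod g.right.toAdd.natAbs) = 0
        rw [ZMod.intCast_zmod_eq_zero_iff_dvd]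
        exact Int.natAbs_dvd.mpr dvd_rfl
      rw [h3, Subgroup.zpowers_one_eq_bot, Subgroup.mem_bot] at h2
      have h4 : ((h.right.toAdd : ℤ) : ZMod g.right.toAdd.natAbs) = 0 := h2
      rw [ZMod.intCast_zmod_eq_zero_iff_dvd] at h4
      exact hd (Int.natAbs_dvd.mp h4)

end Pool.Agent.U985.Gersten
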