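import Pool.Agent.U985.Gersten2

set_option autoImplicit false

namespace Pool.Agent.U985.Gersten

/-! ### `⟨a⟩` is not a virtual retract

A virtual retraction onto `⟨a⟩` gives, by averaging the squares of the conjugates of the
corresponding homomorphism, a conjugation invariant function which is a quadratic form on commuting
elements and is positive on `a`. But `t`, `a t`, `a² t` are conjugate. -/

/-- the generator `a` in `G` -/
def A : G := SemidirectProduct.inl a

/-- the generator `t` in `G` -/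
def t : G := SemidirectProduct.inr (Multiplicative.ofAdd 1)

theorem comm_At : Commute A t := by
  show A * t = t * A
  apply SemidirectProduct.ext
  · show a * phi 0 1 = 1 * phi 1 a
    simp
  · rfl

theorem conj_b : (SemidirectProduct.inl b : G)⁻¹ * t * (SemidirectProduct.inl b : G)⁻¹⁻¹ = A * t := by
  rw [inv_inv, mul_assoc, inv_mul_eq_iff_eq_mul]
  apply SemidirectProduct.ext
  · show 1 * phi 1 b = b * phi 0 (a * phi 0 1)
    rw [phi_zero_apply, phi_b, map_one, zpow_one]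
    group
  · rfl

theorem conj_c : (SemidirectProduct.inl c : G)⁻¹ * t * (SemidirectProduct.inl c : G)⁻¹⁻¹ =
    A * (A * t) := by
  rw [inv_inv, mul_assoc, inv_mul_eq_iff_eq_mul]
  apply SemidirectProduct.ext
  · show 1 * phi 1 c = c * phi 0 (a * phi 0 (a * phi 0 1))
    rw [phi_zero_apply, phi_zero_apply, phi_c, map_one, one_mul, mul_one, mul_one]
    rw [zpow_two]
  · rfl

section

variable (K : Subgroup G) (R : ↥K →* Multiplicative ℤ) (n : ℕ)
  (hn : ∀ g x : G, g⁻¹ * x ^ n * g ∈ K)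

/-- a conjugate of the homomorphism -/
def rho (g x : G) : ℤ := (R ⟨g⁻¹ * x ^ n * g, hn g x⟩).toAdd

theorem rho_mul (g x : G) (k : G) (hk : k ∈ K) : rho K R n hn (g * k) x = rho K R n hn g x := by
  unfold rho
  have h1 : (⟨(g * k)⁻¹ * x ^ n * (g * k), hn (g * k) x⟩ : K) =
      ⟨k, hk⟩⁻¹ * ⟨g⁻¹ * x ^ n * g, hn g x⟩ * ⟨k, hk⟩ := by
    apply Subtype.ext
    show (g * k)⁻¹ * x ^ n * (g * k) = k⁻¹ * (g⁻¹ * x ^ n * g) * k
    group
  rw [h1]
  have h2 : R (⟨k, hk⟩⁻¹ * ⟨g⁻¹ * x ^ n * g, hn g x⟩ * ⟨k, hk⟩) = R ⟨g⁻¹ * x ^ n * g, hn g x⟩ := by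
    rw [map_mul, map_mul, map_inv, mul_comm _ (R ⟨k, hk⟩), mul_inv_cancel_left]
  rw [h2]

theorem rho_conj (g x h : G) : rho K R n hn g (h * x * h⁻¹) = rho K R n hn (h⁻¹ * g) x := by
  unfold rho
  congr 2
  apply Subtype.ext
  show g⁻¹ * (h * x * h⁻¹) ^ n * g = (h⁻¹ * g)⁻¹ * x ^ n * (h⁻¹ * g)
  rw [conj_pow]
  group

theorem rho_add (g x y : G) (h : Commute x y) :
    rho K R n hn g (x * y) = rho K R n hn g x + rho K R n hn g y := by
  unfold rho
  rw [← toAdd_mul, ← map_mul]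
  congr 2
  apply Subtype.ext
  show g⁻¹ * (x * y) ^ n * g = (g⁻¹ * x ^ n * g) * (g⁻¹ * y ^ n * g)
  rw [h.mul_pow]
  group

theorem rho_out (g x : G) : rho K R n hn (g : G ⧸ K).out x = rho K R n hn g x := by
  obtain ⟨k, hk⟩ := QuotientGroup.mk_out_eq_mul K g
  rw [hk, rho_mul K R n hn g x k k.2]

variable [Fintype (G ⧸ K)]

/-- the invariant quadratic form -/
noncomputable def Q (x : G) : ℤ := ∑ q : G ⧸ K, rho K R n hn q.out x ^ 2

theorem Q_conj (x h : G) : Q K R n hn (h * x * h⁻¹) = Q K R n hn x := by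
  unfold Q
  rw [← Equiv.sum_comp (MulAction.toPerm h⁻¹ : Equiv.Perm (G ⧸ K))
    (fun q => rho K R n hn q.out x ^ 2)]
  refine Finset.sum_congr rfl fun q _ => ?_
  have h1 : (MulAction.toPerm h⁻¹ : Equiv.Perm (G ⧸ K)) q = ((h⁻¹ * q.out : G) : G ⧸ K) := by
    show h⁻¹ • q = _
    conv_lhs => rw [← QuotientGroup.out_eq' q]
    rfl
  rw [rho_conj, h1, rho_out]

theorem rho_A_zero (q : G ⧸ K) : rho K R n hn q.out A = 0 := by
  have h1 : Q K R n hn (A * t) = Q K R n hn t := by rw [← conj_b, Q_conj]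
  have h2 : Q K R n hn (A * (A * t)) = Q K R n hn t := by rw [← conj_c, Q_conj]
  have h3 : ∀ q : G ⧸ K, rho K R n hn q.out (A * (A * t)) =
      rho K R n hn q.out A + (rho K R n hn q.out A + rho K R n hn q.out t) := by
    intro q
    rw [rho_add _ _ _ _ _ _ _ ((Commute.refl A).mul_right comm_At), rho_add _ _ _ _ _ _ _ comm_At]
  have h4 : ∑ q : G ⧸ K, 2 * rho K R n hn q.out A ^ 2 = 0 := by
    have h5 : ∑ q : G ⧸ K, 2 * rho K R n hn q.out A ^ 2 =
        Q K R n hn (A * (A * t)) - 2 * Q K R n hn (A * t) + Q K R n hn t := by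
      unfold Q
      rw [Finset.mul_sum, ← Finset.sum_sub_distrib, ← Finset.sum_add_distrib]
      refine Finset.sum_congr rfl fun q _ => ?_
      rw [h3 q, rho_add _ _ _ _ _ _ _ comm_At]
      ring
    rw [h5, h1, h2]; ring
  have h5 := (Finset.sum_eq_zero_iff_of_nonneg (fun q _ => by positivity)).mp h4 q
    (Finset.mem_univ _)
  have h6 : rho K R n hn q.out A ^ 2 = 0 := by omega
  exact pow_eq_zero_iff (two_ne_zero) |>.mp h6

end

theorem A_zpow (s : ℤ) : A ^ s = SemidirectProduct.inl (a ^ s) := by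
  show (SemidirectProduct.inl a : G) ^ s = _
  rw [← map_zpow]

theorem not_vrc : ¬ ∃ K : Subgroup G, K.FiniteIndex ∧ Subgroup.zpowers A ≤ K ∧
      ∃ r : ↥K →* G, (∀ k : ↥K, r k ∈ Subgroup.zpowers A) ∧
        (∀ k : ↥K, (k : G) ∈ Subgroup.zpowers A → r k = (k : G)) := by
  rintro ⟨K, hK, hle, r, hr1, hr2⟩
  have hmul : ∀ x y : G, x ∈ Subgroup.zpowers A → y ∈ Subgroup.zpowers A →
      epa (x * y).left = epa x.left * epa y.left := by
    intro x y hx hy
    obtain ⟨s, rfl⟩ := Subgroup.mem_zpowers_iff.mp hx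
    obtain ⟨s', rfl⟩ := Subgroup.mem_zpowers_iff.mp hy
    rw [← zpow_add, A_zpow, A_zpow, A_zpow]
    simp only [SemidirectProduct.left_inl]
    rw [zpow_add, map_mul]
  let R : ↥K →* Multiplicative ℤ :=
    { toFun := fun k => epa (r k).left
      map_one' := by rw [map_one]; rfl
      map_mul' := fun x y => by rw [map_mul, hmul _ _ (hr1 x) (hr1 y)] }
  let N := K.normalCore
  have hN : N.index ≠ 0 := (inferInstance : N.FiniteIndex).index_ne_zero
  have hn : ∀ g x : G, g⁻¹ * x ^ N.index * g ∈ K := by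
    intro g x
    have h1 : x ^ N.index ∈ N := Subgroup.pow_index_mem N x
    have h2 := (inferInstance : N.Normal).conj_mem _ h1 g⁻¹
    rw [inv_inv] at h2
    exact Subgroup.normalCore_le K h2
  let iF : Fintype (G ⧸ K) := Fintype.ofFinite _
  have h1 := rho_A_zero K R N.index hn ((1 : G) : G ⧸ K)
  rw [rho_out] at h1
  have h2 : rho K R N.index hn 1 A = N.index := by
    unfold rho
    show (epa (r ⟨1⁻¹ * A ^ N.index * 1, hn 1 A⟩).left).toAdd = _
    have h3 : (1⁻¹ * A ^ N.index * 1 : G) = A ^ (N.index : ℤ) := by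
      rw [inv_one, one_mul, mul_one, zpow_natCast]
    have h4 : (1⁻¹ * A ^ N.index * 1 : G) ∈ Subgroup.zpowers A := by
      rw [h3]; exact Subgroup.zpow_mem _ (Subgroup.mem_zpowers _) _
    rw [hr2 _ h4]
    show (epa (1⁻¹ * A ^ N.index * 1 : G).left).toAdd = _
    rw [h3, A_zpow, SemidirectProduct.left_inl, epa_zpow]
  rw [h2] at h1
  exact hN (by exact_mod_cast h1)

end Pool.Agent.U985.Gersten
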